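import Pool.Agent.Q66.RX.Stm

/-!
Job RX-AP0: the groups of families tending to one have the approximation property by truncations.
-/

set_option autoImplicit false

namespace Pool.Agent.Q234.RX

open Topology Filter Set Pool.Agent.Q66.RX

section
variable {I X G : Type} [CommGroup X] [TopologicalSpace X] [IsTopologicalGroup X]
  [CommGroup G] [TopologicalSpace G] [IsTopologicalGroup G] (F : Fam I X G)

open Classical in
/-- the family with one member -/
noncomputable def sg (j : I) (a : X) : I → X := fun i => if i = j then a else 1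

theorem sg_ex (hF : IsVan F) (j : I) (a : X) : ∃ g : G, F.c g = sg j a := by
  rw [hF]
  have h : ∀ᶠ i in cofinite, i ≠ j := by
    have := (Set.finite_singleton j).compl_mem_cofinite
    filter_upwards [this] with i hi
    simpa using hi
  apply tendsto_const_nhds.congr'
  filter_upwards [h] with i hi
  simp [sg, hi]

/-- the element with one member, a homomorphism -/
noncomputable def em (hF : IsVan F) (j : I) : X →* G where
  toFun a := (sg_ex F hF j a).choose
  map_one' := by
    apply F.inj
    rw [(sg_ex F hF j 1).choose_spec, map_one]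
    funext i
    simp [sg]
  map_mul' a b := by
    apply F.inj
    rw [map_mul, (sg_ex F hF j (a * b)).choose_spec, (sg_ex F hF j a).choose_spec,
      (sg_ex F hF j b).choose_spec]
    funext i
    by_cases hi : i = j
    · simp [sg, hi]
    · simp [sg, hi]

theorem em_c (hF : IsVan F) (j : I) (a : X) : F.c (em F hF j a) = sg j a :=
  (sg_ex F hF j a).choose_spec

theorem em_cont (hF : IsVan F) (j : I) : Continuous (em F hF j) := by
  apply continuous_of_continuousAt_one
  intro W hW
  rw [map_one] at hW
  obtain ⟨U, hU, h⟩ := (F.nhd W).1 hW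
  rw [Filter.mem_map]
  filter_upwards [hU] with a ha
  apply h
  intro i
  rw [em_c]
  by_cases hi : i = j
  · simpa [sg, hi] using ha
  · simpa [sg, hi] using mem_of_mem_nhds hU

/-- the continuous homomorphism -/
noncomputable def emc (hF : IsVan F) (j : I) : X →ₜ* G where
  toMonoidHom := em F hF j
  continuous_toFun := em_cont F hF j

theorem emc_c (hF : IsVan F) (j : I) (a : X) : F.c (emc F hF j a) = sg j a := em_c F hF j a

open Classical in
theorem prod_c (hF : IsVan F) (J : Finset I) (x : I → X) (i : I) :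
    F.c (∏ j ∈ J, emc F hF j (x j)) i = if i ∈ J then x i else 1 := by
  rw [map_prod, Finset.prod_apply]
  have e : ∀ j ∈ J, F.c (emc F hF j (x j)) i = if i = j then x j else 1 := by
    intro j _
    rw [emc_c]
    simp only [sg]
  rw [Finset.prod_congr rfl e, Finset.prod_ite_eq]

theorem ap0 (hF : IsVan F) : AP F := by
  classical
  intro C hC W hW
  obtain ⟨U, hU, hUW⟩ := (F.nhd W).1 hW
  have hU' : (fun z : X => z⁻¹) ⁻¹' U ∈ 𝓝 (1 : X) :=
    continuous_inv.continuousAt.preimage_mem_nhds (by simpa using hU)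
  obtain ⟨V, hV, hVU⟩ := exists_nhds_one_split hU'
  set N : Set G := {g | ∀ i, F.c g i ∈ V} with hN
  have hN1 : N ∈ 𝓝 (1 : G) := (F.nhd N).2 ⟨V, hV, fun g hg => hg⟩
  obtain ⟨t, -, ht⟩ := hC.elim_nhds_subcover (fun y => (fun z => y⁻¹ * z) ⁻¹' N) (by
    intro y _
    apply (continuous_const_mul (y⁻¹)).continuousAt.preimage_mem_nhds
    simpa using hN1)
  have hfin : ∀ y : G, {i | F.c y i ∉ V}.Finite := by
    intro y
    have h : Tendsto (F.c y) cofinite (𝓝 1) := (hF (F.c y)).1 ⟨y, rfl⟩
    have h2 := Filter.mem_cofinite.1 (h hV)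
    exact h2
  refine ⟨t.biUnion fun y => (hfin y).toFinset, emc F hF, fun y hy => ?_⟩
  apply hUW
  intro i
  rw [map_mul, Pi.mul_apply, prod_c, map_inv, Pi.inv_apply]
  by_cases hi : i ∈ t.biUnion fun y => (hfin y).toFinset
  · rw [if_pos hi, mul_inv_cancel]
    exact mem_of_mem_nhds hU
  · rw [if_neg hi, one_mul]
    obtain ⟨z, hz, hyz⟩ := mem_iUnion₂.1 (ht hy)
    have h1 : F.c z i ∈ V := by
      by_contra h
      exact hi (Finset.mem_biUnion.2 ⟨z, hz, (hfin z).mem_toFinset.2 h⟩)
    have h2 : F.c (z⁻¹ * y) i ∈ V := hyz i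
    have h3 := hVU _ h1 _ h2
    rw [← Pi.mul_apply, ← map_mul, mul_inv_cancel_left] at h3
    exact h3

end

/-- **Job AP0.** -/
theorem t_AP0 : S_AP0 := fun _ _ _ _ _ _ _ _ _ F hF => ap0 F hF

end Pool.Agent.Q234.RX
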